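import Pool.Agent.Lib.P325rx.Fin

/-!
Quasi-polynomially many convex constraints on top of the standard semidefinite relaxation do not
decide the gap problem `(1 - ε, δ)` of unique games, for every number `2 ^ m` of labels that is at
least `(1 / δ) ^ (12000 / ε)`.

Definitions: `Game`, `Game.satFrac`, `Game.value` in `Pool/Agent/Lib/P325x/Defs.lean`; `relabel`,
`Certifies` in `Pool/Agent/Lib/P325av/Defs.lean`; `StandardSDP` in `Pool/Agent/Lib/P325pr/Defs.lean`.
-/

namespace Pool.Agent.Results.MP_325f1f_lc.ConvexWithSdp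

open Pool.Agent.Lib.P325x (Game)
open Pool.Agent.Lib.P325av (relabel Certifies)
open Pool.Agent.Lib.P325pr (StandardSDP)

/-- Let `0 < ε, δ ≤ 1 / 2`, let `c = 1 / (150 log ((2 / ε) log (2 / δ)))` and let `m` be any number
with `2 ^ m ≥ (1 / δ) ^ (12000 / ε)`. For all large `N` there is one unique game `G` on `N` left and
`N` right vertices, with linear constraints `z (src e) + b e = z (dst e)` over `(ZMod 2) ^ m` (so
with `2 ^ m` labels) and value at most `δ`, on which every relaxation given by the standard
semidefinite constraints and by at most `exp ((log N) ^ (1 + c))` further convex constraints of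
dimension at most `(log N) ^ c` fails for almost all names of the vertices:
let `Y` be a real vector space with `R ≤ exp ((log N) ^ (1 + c))` constraints `A j y ∈ K j`, where
`A j : Y → ℝ ^ D` is linear, `D ≤ (log N) ^ c` and `K j` is an arbitrary convex set, and with a
point `pt z` that satisfies them for every labeling `z` of the vertices by `(ZMod 2) ^ m`; the
standard semidefinite constraints are all the constraints `0 ≤ v y + v0` for affine functions
`v y + v0` that are equal at the points `pt z` to the square of a function `a + ∑ p, h p (z p)` of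
`z`. Then for all but at most `(N !) ^ 2 / exp ((log N) ^ (1 + c))` of the `(N !) ^ 2` pairs of
permutations `g = (σ, τ)` of the left and of the right vertices the relaxation does not certify
value at most `1 - ε` for the relabeled game `relabel G g`: every affine objective `w y + w0` that
takes at `pt z`, for every labeling `z`, the fraction of constraints of `relabel G g` satisfied by
`z` as its value, is larger than `1 - ε` at some point `y` that satisfies all the constraints. -/
theorem result (ε δ : ℝ) (hε : 0 < ε) (hε' : ε ≤ 1 / 2) (hδ : 0 < δ) (hδ' : δ ≤ 1 / 2) (m : ℕ)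
    (hm : (1 / δ) ^ (12000 / ε) ≤ (2 : ℝ) ^ m) :
    ∃ c : ℝ, c = 1 / (150 * Real.log (2 / ε * Real.log (2 / δ))) ∧ 0 < c ∧
      ∃ N0 : ℕ, ∀ N ≥ N0,
      ∃ (ι : Type) (_ : Fintype ι) (src dst : ι → Fin N) (b : ι → (Fin m → ZMod 2)), Nonempty ι ∧
      (Game.mk src dst (fun e => Equiv.addRight (b e))).value ≤ δ ∧
      ∀ (Y : Type) [AddCommGroup Y] [Module ℝ Y] (R D : ℕ)
        (A : Fin R → Y →ₗ[ℝ] (Fin D → ℝ)) (K : Fin R → Set (Fin D → ℝ))
        (pt : (Fin N ⊕ Fin N → (Fin m → ZMod 2)) → Y),
        (R : ℝ) ≤ Real.exp (Real.log N ^ (1 + c)) → (D : ℝ) ≤ Real.log N ^ c →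
        (∀ j, Convex ℝ (K j)) → (∀ z j, A j (pt z) ∈ K j) →
        (Nat.card {g : Equiv.Perm (Fin N) × Equiv.Perm (Fin N) //
          Certifies ({y | ∀ j, A j y ∈ K j} ∩ StandardSDP pt) pt (1 - ε)
            (relabel (Game.mk src dst (fun e => Equiv.addRight (b e))) g)} : ℝ) ≤
          (N.factorial : ℝ) ^ 2 / Real.exp (Real.log N ^ (1 + c)) :=
  ⟨Pool.Agent.Lib.P325rx.cX ε δ, rfl, Pool.Agent.Lib.P325rx.cX_pos ε δ hε hε' hδ hδ',
    Pool.Agent.Lib.P325rx.finX ε δ hε hε' hδ hδ' m hm⟩

end Pool.Agent.Results.MP_325f1f_lc.ConvexWithSdp
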