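import Pool.Agent.Lib.P325ad.Main

/-!
The constant-depth circuit complexity of the gap problem for unique games with completeness `1 - ε`
and soundness `δ` on a family of bounded-degree graphs: both bounds.

Definitions: `IsProb`, `br`, `esrc`, `etgt`, `MaxDeg`, `shiftVal`, `IsJunta`, `IsCirc` in
`Pool/Agent/Lib/P325ac/Base.lean`.
-/

open Finset
open scoped BigOperators

namespace Pool.Agent.Results.MP_325f1f_lc.DepthComplexity

open Pool.Agent.P325ac (IsProb br esrc etgt MaxDeg shiftVal IsJunta IsCirc)

/-- Let `0 < δ < 1` and `2 ^ k ≥ 256 / δ ^ 2`. There are numbers `D`, `B` and bipartite graphs `Ed N`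
with `N` left and `N` right vertices and degrees at most `D` such that for all `N ≥ B` the following
holds for the shift games on `Ed N` (unique games with the label set `(ℤ / 2) ^ k` and the
constraints `z (src e) + c e = z (tgt e)`).

Lower bound: for every `0 < ε < 1` there are a probability distribution `μ1` on the games of value at
least `1 - ε` and a probability distribution `μ0` on the games of value at most `δ` such that for
every circuit with `h` levels of unbounded AND and OR gates (with free negations) and `card G` gates,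
whose inputs are arbitrary functions of at most `w` constraints, the probabilities that `μ1` and `μ0`
are accepted differ by at most `((B / ε) ^ B (w + log (card G * N))) ^ (5 h) / N ^ (ε / B)`.

Upper bound: for every `0 ≤ ε ≤ 1 / B` and `h ≥ 7` there is a circuit with `h` levels, whose inputs
are functions of single constraints, with `log (card G) ≤ B log N + B h ^ 2 (N ^ ε log N) ^ (B / h)`,
that accepts all games of value at least `1 - ε` and rejects all games of value at most `δ`. -/
theorem result (δ : ℝ) (hδ : 0 < δ) (hδ1 : δ < 1) (k : ℕ) (hk : 256 / δ ^ 2 ≤ 2 ^ k) :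
    ∃ (D B : ℕ) (Ed : (N : ℕ) → Finset (Fin N × Fin N)), 1 ≤ B ∧ (∀ N, MaxDeg (Ed N) D) ∧
      ∀ N : ℕ, B ≤ N →
        (∀ ε : ℝ, 0 < ε → ε < 1 → ∃ μ1 μ0 : ({p // p ∈ Ed N} → Fin k → Bool) → ℝ,
          IsProb μ1 ∧ IsProb μ0 ∧
          (∀ c, μ1 c ≠ 0 → 1 - ε ≤ shiftVal (esrc (Ed N)) (etgt (Ed N)) k c) ∧
          (∀ c, μ0 c ≠ 0 → shiftVal (esrc (Ed N)) (etgt (Ed N)) k c ≤ δ) ∧
          ∀ (G : Type) [Fintype G] (h w : ℕ) (lv : G → ℕ)
            (val : G → ({p // p ∈ Ed N} → Fin k → Bool) → Bool), 1 ≤ w →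
            IsCirc (IsJunta w) lv val → (∀ g, lv g < h) → ∀ g,
            |∑ c, μ1 c * br (val g c) - ∑ c, μ0 c * br (val g c)| ≤
              (((B : ℝ) / ε) ^ B * (w + Real.log (Fintype.card G * N))) ^ (5 * h) /
                (N : ℝ) ^ (ε / B)) ∧
        (∀ (ε : ℝ) (h : ℕ), 0 ≤ ε → ε ≤ 1 / B → 7 ≤ h →
          ∃ (G : Type) (_ : Fintype G) (lv : G → ℕ)
            (val : G → ({p // p ∈ Ed N} → Fin k → Bool) → Bool) (g : G),
            IsCirc (IsJunta 1) lv val ∧ (∀ g', lv g' < h) ∧
            Real.log (Fintype.card G) ≤ B * Real.log N +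
              B * h ^ 2 * ((N : ℝ) ^ ε * Real.log N) ^ ((B : ℝ) / h) ∧
            (∀ c, 1 - ε ≤ shiftVal (esrc (Ed N)) (etgt (Ed N)) k c → val g c = true) ∧
            (∀ c, shiftVal (esrc (Ed N)) (etgt (Ed N)) k c ≤ δ → val g c = false)) :=
  Pool.Agent.P325ad.two_sided δ hδ hδ1 k hk

end Pool.Agent.Results.MP_325f1f_lc.DepthComplexity
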