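import Pool.Agent.Lib.P325pa.Upper
import Pool.Agent.Lib.P325pa.Low

/-!
Almost sharp parallel repetition for projection games and unique games.

Definitions (`Pool/Agent/Lib/P325pa/Defs.lean`): `Game` (projection game: edges, ends, a map from the
left labels to the right labels for every edge), `IsUnique` (all maps are bijections), `value`, `prod`
(both games are played at once), `tensor` (product of a list of games; `tensor (List.replicate k G)` is
the `k`-fold parallel repetition of `G`).
-/

open Pool.Agent.P325pa

namespace Pool.Agent.Results.MP_325f1f_lc.ParallelRepetition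

/-- (1) For every list of projection games the value of the product game is at most the product of
the numbers `√(2 v / (1 + v ^ 2))`, `v` the value of the factor; in particular
the `k`-fold repetition of `G` has value at most `(2 v / (1 + v ^ 2)) ^ (k / 2)`. (2) For every `D ≥ 2` and `0 < θ < 1` there is a unique game
of value at most `v = 2 / D` whose `k`-fold repetition has value at least
`((1 - θ) √(2 v - v ^ 2)) ^ k` for all large `k`. -/
theorem result :
    (∀ L : List Game,
      value (tensor L) ≤ (L.map fun G => √(2 * value G / (1 + value G ^ 2))).prod) ∧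
    (∀ D : ℕ, 2 ≤ D → ∀ θ : ℝ, 0 < θ → θ < 1 →
      ∃ G : Game, IsUnique G ∧ value G ≤ 2 / D ∧ ∃ k₀ : ℕ, ∀ k ≥ k₀,
        ((1 - θ) * √(2 * (2 / D) - (2 / D) ^ 2)) ^ k ≤ value (tensor (List.replicate k G))) :=
  ⟨fun L => upper L, fun D hD θ h0 h1 => lower D hD θ h0 h1⟩

end Pool.Agent.Results.MP_325f1f_lc.ParallelRepetition
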