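import Pool.Agent.Lib.P325k.Main
import Pool.Agent.Lib.P325P.MainP

/-!
The size of the linear programs that solve the gap problem `(s, δ)` for unique games: an upper bound
for the degree of the Sherali-Adams programs, for all completeness and soundness parameters, and a
lower bound for arbitrary linear programs; the exponents agree up to a logarithmic factor.

Definitions: `Game`, `Game.satFrac`, `Game.value` in `Pool/Agent/Lib/P325x/Defs.lean`;
`IsLocalExpectation` in `Pool/Agent/Lib/P325h/Defs.lean`.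
-/

namespace Pool.Agent.Results.MP_325f1f_lc.ProgramExponent

open Pool.Agent.Lib.P325x (Game)
open Pool.Agent.Lib.P325h (IsLocalExpectation)

/-- 1. Let `0 < δ < s < 1`, `D = log (1 / δ)`, `x = log (1 / s) / min D (D ^ 2)` and `C = 250` if
`s ≤ 31 / 32`, `C = 2500` if `δ ≤ 1 / 1024`, `C = 22000` in all cases. If a unique game with `n`
vertices (and any number of labels) has a Sherali-Adams solution of degree
`r ≥ (1 + 1 / x) ^ 16 * n ^ (C x log (2 + 1 / x))` which gives the fraction of satisfied edges the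
value at least `s`, then the value of the game is at least `δ`.

2. Let `0 < δ ≤ 1 / 2`, `δ ≤ s < 1`, `x = log (1 / s) / log (1 / δ)` and `k ≥ 36 / δ ^ 2`. For all
large `N`, no linear program with at most `exp ((2 N) ^ (x / 300000))` inequalities decides the gap:
let `Y` be a real vector space with `R ≤ exp ((2 N) ^ (x / 300000))` inequalities `A j y ≤ c j` and
a feasible point `pt z` for every labeling `z` of `N` left and `N` right vertices by `ZMod k`. Then
there is a unique game with linear constraints `z (src e) + b e = z (dst e)` on these vertices, of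
value at most `δ`, such that every affine objective `w y + w0` that takes at `pt z`, for every
labeling `z`, the fraction of constraints satisfied by `z` as its value, is larger than `s` at some
feasible point `y`. -/
theorem result :
    (∀ s δ D x C : ℝ, 0 < δ → δ < s → s < 1 → D = Real.log (1 / δ) →
      x = Real.log (1 / s) / min D (D ^ 2) →
      ((s ≤ 31 / 32 ∧ C = 250) ∨ (δ ≤ 1 / 1024 ∧ C = 2500) ∨ C = 22000) →
      ∀ (U W Ω ι : Type) [Fintype U] [Fintype W] [Fintype Ω] [Fintype ι]
        (I : Game U W Ω ι) (r : ℕ),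
        (1 + 1 / x) ^ 16 * ((Fintype.card U : ℝ) + Fintype.card W) ^
          (C * x * Real.log (2 + 1 / x)) ≤ r →
        ∀ E : ((U ⊕ W → Ω) → ℝ) →ₗ[ℝ] ℝ, IsLocalExpectation r E →
          s ≤ E (fun z => I.satFrac (fun u => z (Sum.inl u)) (fun w => z (Sum.inr w))) →
          δ ≤ I.value) ∧
    ∀ s δ : ℝ, 0 < δ → δ ≤ 1 / 2 → δ ≤ s → s < 1 → ∀ k : ℕ, 36 ≤ (k : ℝ) * δ ^ 2 →
      ∃ N0 : ℕ, ∀ N ≥ N0, ∀ (Y : Type) [AddCommGroup Y] [Module ℝ Y] (R : ℕ)
        (A : Fin R → Y →ₗ[ℝ] ℝ) (c : Fin R → ℝ) (pt : (Fin N ⊕ Fin N → ZMod k) → Y),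
        (R : ℝ) ≤ Real.exp ((2 * (N : ℝ)) ^ (Real.log (1 / s) / Real.log (1 / δ) / 300000)) →
        (∀ z j, A j (pt z) ≤ c j) →
        ∃ (ι : Type) (_ : Fintype ι) (src dst : ι → Fin N) (b : ι → ZMod k), Nonempty ι ∧
          (Game.mk src dst (fun e => Equiv.addRight (b e))).value ≤ δ ∧
          ∀ (w : Y →ₗ[ℝ] ℝ) (w0 : ℝ),
            (∀ z, w (pt z) + w0 = (Game.mk src dst (fun e => Equiv.addRight (b e))).satFrac
              (fun u => z (Sum.inl u)) (fun u => z (Sum.inr u))) →
            ∃ y, (∀ j, A j y ≤ c j) ∧ s < w y + w0 :=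
  ⟨fun s δ D x C hδ hδs hs1 hD hx hC U W Ω ι _ _ _ _ I r hr E hE hval =>
      Pool.Agent.Lib.P325k.sa_gap s δ D x C hδ hδs hs1 hD hx hC U W Ω ι I r E hE hr hval,
    fun s δ hδ hδ2 hδs hs k hk => Pool.Agent.Lib.P325P.mainP s δ hδ hδ2 hδs hs k hk⟩

end Pool.Agent.Results.MP_325f1f_lc.ProgramExponent
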